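import Mathlib
import Pool.Agent.Lib.MP_6bc78b_nt.MS.GL.Iface
import Pool.Agent.Lib.MP_6bc78b_nt.MS.P1.RectOn
import Pool.Agent.Lib.MP_6bc78b_nt.MS.P1.Good

/-! Project MS, Part GL, module PFR: partial fractions of `ξ'/ξ` under RH. -/

set_option autoImplicit false

open Complex Set Filter Topology MeasureTheory intervalIntegral

namespace Pool.Agent.Lib.MP_6bc78b_nt.MS.GL.H84

open Pool.Agent.Lib.MP_6bc78b_nt Pool.Agent.Lib.MP_6bc78b_nt.LL Pool.Agent.Lib.MP_6bc78b_nt.H11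
  Pool.Agent.Lib.MP_6bc78b_nt.MS Pool.Agent.Lib.MP_6bc78b_nt.MS.P1
  Pool.Agent.Lib.MP_6bc78b_nt.MS.GL

variable {a b c d : ℝ}

/-! ## Integrals over the boundary of a rectangle -/

lemma norm_rectI_le (hab : a ≤ b) (hcd : c ≤ d) {f : ℂ → ℂ} {M : ℝ}
    (hM : ∀ z ∈ bdry a b c d, ‖f z‖ ≤ M) :
    ‖rectI f a b c d‖ ≤ 2 * M * ((b - a) + (d - c)) := by
  have h1 : ‖∫ x : ℝ in a..b, f (x + c * I)‖ ≤ M * (b - a) := by
    have h := intervalIntegral.norm_integral_le_of_norm_le_const (a := a) (b := b) (C := M)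
      (f := fun x : ℝ => f (x + c * I)) (fun x hx => by
        rw [uIoc_of_le hab] at hx
        exact hM _ (mem_bot hcd ⟨hx.1.le, hx.2⟩))
    rwa [abs_of_nonneg (by linarith)] at h
  have h2 : ‖∫ x : ℝ in a..b, f (x + d * I)‖ ≤ M * (b - a) := by
    have h := intervalIntegral.norm_integral_le_of_norm_le_const (a := a) (b := b) (C := M)
      (f := fun x : ℝ => f (x + d * I)) (fun x hx => by
        rw [uIoc_of_le hab] at hx
        exact hM _ (mem_top hcd ⟨hx.1.le, hx.2⟩))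
    rwa [abs_of_nonneg (by linarith)] at h
  have h3 : ‖∫ y : ℝ in c..d, f (b + y * I)‖ ≤ M * (d - c) := by
    have h := intervalIntegral.norm_integral_le_of_norm_le_const (a := c) (b := d) (C := M)
      (f := fun y : ℝ => f (b + y * I)) (fun x hx => by
        rw [uIoc_of_le hcd] at hx
        exact hM _ (mem_right hab ⟨hx.1.le, hx.2⟩))
    rwa [abs_of_nonneg (by linarith)] at h
  have h4 : ‖∫ y : ℝ in c..d, f (a + y * I)‖ ≤ M * (d - c) := by
    have h := intervalIntegral.norm_integral_le_of_norm_le_const (a := c) (b := d) (C := M)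
      (f := fun y : ℝ => f (a + y * I)) (fun x hx => by
        rw [uIoc_of_le hcd] at hx
        exact hM _ (mem_left hab ⟨hx.1.le, hx.2⟩))
    rwa [abs_of_nonneg (by linarith)] at h
  simp only [rectI]
  refine (norm_sub_le _ _).trans ?_
  have h5 := norm_add_le ((∫ x : ℝ in a..b, f (x + c * I)) - ∫ x : ℝ in a..b, f (x + d * I))
    (I * ∫ y : ℝ in c..d, f (b + y * I))
  have h6 := norm_sub_le (∫ x : ℝ in a..b, f (x + c * I)) (∫ x : ℝ in a..b, f (x + d * I))
  rw [norm_mul, Complex.norm_I, one_mul] at h5 ⊢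
  linarith

lemma rectI_pair {w s : ℂ} (hws : w ≠ s) (hw : (a < w.re ∧ w.re < b) ∧ (c < w.im ∧ w.im < d))
    (hs : (a < s.re ∧ s.re < b) ∧ (c < s.im ∧ s.im < d)) :
    rectI (fun z => 1 / (z - w) * (1 / (z - s))) a b c d = 0 := by
  obtain ⟨⟨w1, w2⟩, w3, w4⟩ := hw
  obtain ⟨⟨s1, s2⟩, s3, s4⟩ := hs
  have hab : a ≤ b := by linarith
  have hcd : c ≤ d := by linarith
  have hne : w - s ≠ 0 := sub_ne_zero.2 hws
  have h1 : rectI (fun z => 1 / (z - w) * (1 / (z - s))) a b c d =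
      rectI (fun z => (1 / (w - s)) * (1 / (z - w)) + (-(1 / (w - s))) * (1 / (z - s))) a b c d := by
    apply rectI_congr hab hcd
    intro z hz
    have z1 := sub_ne_zero.2 (not_mem_bdry w1 w2 w3 w4 hz)
    have z2 := sub_ne_zero.2 (not_mem_bdry s1 s2 s3 s4 hz)
    simp only
    field_simp
    ring
  have hc1 : ContinuousOn (fun z : ℂ => (1 / (w - s)) * (1 / (z - w))) (bdry a b c d) := by
    apply ContinuousOn.mul continuousOn_const
    apply ContinuousOn.div continuousOn_const (by fun_prop)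
    intro z hz
    exact sub_ne_zero.2 (not_mem_bdry w1 w2 w3 w4 hz)
  have hc2 : ContinuousOn (fun z : ℂ => (-(1 / (w - s))) * (1 / (z - s))) (bdry a b c d) := by
    apply ContinuousOn.mul continuousOn_const
    apply ContinuousOn.div continuousOn_const (by fun_prop)
    intro z hz
    exact sub_ne_zero.2 (not_mem_bdry s1 s2 s3 s4 hz)
  rw [h1, rectI_add hab hcd hc1 hc2, rectI_const_mul, rectI_const_mul, rectI_inv w1 w2 w3 w4,
    rectI_inv s1 s2 s3 s4]
  ring

/-- The residues of `F'/F(z) 1/(z - s)` in a rectangle. -/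
theorem rectI_partial {F h : ℂ → ℂ} (hh : Differentiable ℂ h) (hab : a ≤ b) (hcd : c ≤ d)
    (Z : Finset ℂ) (m : ℂ → ℕ) (hF : ∀ z, F z = (∏ w ∈ Z, (z - w) ^ m w) * h z)
    (hZ : ∀ w ∈ Z, (a < w.re ∧ w.re < b) ∧ (c < w.im ∧ w.im < d))
    (h0 : ∀ z : ℂ, a ≤ z.re → z.re ≤ b → c ≤ z.im → z.im ≤ d → h z ≠ 0)
    {s : ℂ} (hs : (a < s.re ∧ s.re < b) ∧ (c < s.im ∧ s.im < d)) (hsZ : s ∉ Z) :
    rectI (fun z => logDeriv F z * (1 / (z - s))) a b c d =
      2 * Real.pi * I * (logDeriv F s - ∑ w ∈ Z, (m w : ℂ) * (1 / (s - w))) := by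
  have hFeq : F = fun z => (∏ w ∈ Z, (z - w) ^ m w) * h z := funext hF
  have hlog : ∀ z : ℂ, a ≤ z.re → z.re ≤ b → c ≤ z.im → z.im ≤ d → (∀ w ∈ Z, z ≠ w) →
      logDeriv F z = (∑ w ∈ Z, (m w : ℂ) * (1 / (z - w))) + logDeriv h z := by
    intro z z1 z2 z3 z4 hne
    have hPne : (∏ w ∈ Z, (z - w) ^ m w) ≠ 0 :=
      Finset.prod_ne_zero_iff.2 fun w hw => pow_ne_zero _ (sub_ne_zero.2 (hne w hw))
    have hPd : DifferentiableAt ℂ (fun z : ℂ => ∏ w ∈ Z, (z - w) ^ m w) z :=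
      (by fun_prop : Differentiable ℂ fun z : ℂ => ∏ w ∈ Z, (z - w) ^ m w) z
    rw [hFeq, logDeriv_mul z hPne (h0 z z1 z2 z3 z4) hPd (hh z)]
    congr 1
    rw [logDeriv_prod (f := fun (w z : ℂ) => (z - w) ^ m w)
      (fun w hw => pow_ne_zero _ (sub_ne_zero.2 (hne w hw)))
      (fun w hw => by fun_prop)]
    apply Finset.sum_congr rfl
    intro w _
    have : logDeriv (fun z : ℂ => (z - w) ^ m w) z = m w * logDeriv (fun z : ℂ => z - w) z :=
      logDeriv_fun_pow (by fun_prop) _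
    rw [this, logDeriv_apply, deriv_sub_const, deriv_id'']
  obtain ⟨⟨s1, s2⟩, s3, s4⟩ := hs
  obtain ⟨U, hU⟩ : ∃ U : Set ℂ, U = {z | h z ≠ 0} := ⟨_, rfl⟩
  have hUo : IsOpen U := by
    rw [hU]; exact isOpen_ne_fun hh.continuous continuous_const
  have hsub : Icc a b ×ℂ Icc c d ⊆ U := by
    intro z hz
    rw [hU]
    exact h0 z hz.1.1 hz.1.2 hz.2.1 hz.2.2
  have hd1 : DifferentiableOn ℂ (logDeriv h) U := by
    intro z hz
    rw [hU] at hz
    have h1 : Differentiable ℂ (deriv h) := by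
      rw [← differentiableOn_univ]
      exact hh.differentiableOn.deriv isOpen_univ
    have h2 : DifferentiableAt ℂ (fun z => deriv h z / h z) z := (h1 z).div (hh z) hz
    have h3 : logDeriv h = fun z => deriv h z / h z := by
      funext z; rw [logDeriv_apply]
    rw [h3]
    exact h2.differentiableWithinAt
  have hC : rectI (fun z => logDeriv h z / (z - s)) a b c d = 2 * Real.pi * I * logDeriv h s :=
    rectI_cauchy_on hUo hd1 hsub s1 s2 s3 s4
  have hne : ∀ z ∈ bdry a b c d, ∀ w ∈ Z, z ≠ w := by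
    intro z hz w hw
    obtain ⟨⟨h1, h2⟩, h3, h4⟩ := hZ w hw
    exact not_mem_bdry h1 h2 h3 h4 hz
  have hcong : EqOn (fun z => logDeriv F z * (1 / (z - s)))
      (fun z => (∑ w ∈ Z, (m w : ℂ) * (1 / (z - w) * (1 / (z - s)))) + logDeriv h z / (z - s))
      (bdry a b c d) := by
    intro z hz
    simp only
    rw [hlog z hz.2.1.1 hz.2.1.2 hz.2.2.1 hz.2.2.2 (hne z hz), add_mul, Finset.sum_mul]
    congr 1
    · apply Finset.sum_congr rfl
      intro w _
      ring
    · ring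
  have hcont1 : ∀ w ∈ Z, ContinuousOn (fun z => (m w : ℂ) * (1 / (z - w) * (1 / (z - s))))
      (bdry a b c d) := by
    intro w hw
    apply ContinuousOn.mul continuousOn_const
    apply ContinuousOn.mul
    · apply ContinuousOn.div continuousOn_const (by fun_prop)
      intro z hz
      exact sub_ne_zero.2 (hne z hz w hw)
    · apply ContinuousOn.div continuousOn_const (by fun_prop)
      intro z hz
      exact sub_ne_zero.2 (not_mem_bdry s1 s2 s3 s4 hz)
  have hcont2 : ContinuousOn (fun z => logDeriv h z / (z - s)) (bdry a b c d) := by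
    apply ContinuousOn.div (hd1.continuousOn.mono (bdry_sub.trans hsub)) (by fun_prop)
    intro z hz
    exact sub_ne_zero.2 (not_mem_bdry s1 s2 s3 s4 hz)
  rw [rectI_congr hab hcd hcong, rectI_add hab hcd (continuousOn_finsetSum _ hcont1) hcont2,
    rectI_sum hab hcd Z hcont1, hC]
  have hz0 : ∑ w ∈ Z, rectI (fun z => (m w : ℂ) * (1 / (z - w) * (1 / (z - s)))) a b c d = 0 := by
    apply Finset.sum_eq_zero
    intro w hw
    rw [rectI_const_mul, rectI_pair (by rintro rfl; exact hsZ hw) (hZ w hw) ⟨⟨s1, s2⟩, s3, s4⟩,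
      mul_zero]
  rw [hz0, zero_add, hlog s s1.le s2.le s3.le s4.le (by rintro w hw rfl; exact hsZ hw)]
  ring

/-! ## The boundary of large squares -/

lemma bdry_bound (hX : XgrStatement) : ∃ C : ℝ, 0 < C ∧ ∀ n : ℕ, 9 ≤ n →
    ∃ v ∈ Icc ((n:ℝ) - 1/4) (n + 1/4), ∀ z ∈ bdry (1 - v) v (-v) v,
      xi z ≠ 0 ∧ ‖logDeriv xi z‖ ≤ C * (Real.log n) ^ 2 := by
  obtain ⟨C₁, hC₁, h1⟩ := good_xi
  obtain ⟨C₂, hC₂, h2⟩ := hX
  refine ⟨C₁ + 2 * C₂, by positivity, fun n hn => ?_⟩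
  have hn9 : (9:ℝ) ≤ n := by exact_mod_cast hn
  obtain ⟨v, hv, hx⟩ := h1 n hn
  have hl : 1 ≤ Real.log n := by
    rw [Real.le_log_iff_exp_le (by linarith)]
    exact Real.exp_one_lt_d9.le.trans (by linarith)
  have hsq : 0 ≤ (Real.log n) ^ 2 := sq_nonneg _
  have hR : ∀ z : ℂ, 3 / 2 ≤ z.re → z.re ≤ v → |z.im| ≤ v →
      xi z ≠ 0 ∧ ‖logDeriv xi z‖ ≤ (C₁ + 2 * C₂) * (Real.log n) ^ 2 := by
    intro z z1 z2 z3
    obtain ⟨h3, h4⟩ := h2 z z1
    refine ⟨h3, h4.trans ?_⟩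
    have h5 : ‖z‖ ≤ 2 * v := by
      refine (Complex.norm_le_abs_re_add_abs_im z).trans ?_
      rw [abs_of_nonneg (by linarith : 0 ≤ z.re)]
      linarith
    have h6 : Real.log (3 + ‖z‖) ≤ 2 * Real.log n := by
      have e : 2 * Real.log n = Real.log ((n:ℝ) ^ 2) := by
        rw [Real.log_pow]; push_cast; ring
      rw [e]
      apply Real.log_le_log (by positivity)
      have := hv.2
      nlinarith
    have h7 : 2 * Real.log n ≤ 2 * (Real.log n) ^ 2 := by nlinarith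
    calc C₂ * Real.log (3 + ‖z‖) ≤ C₂ * (2 * (Real.log n) ^ 2) := by
          apply mul_le_mul_of_nonneg_left _ hC₂.le
          linarith
      _ ≤ (C₁ + 2 * C₂) * (Real.log n) ^ 2 := by nlinarith
  refine ⟨v, hv, fun z hz => ?_⟩
  obtain ⟨hz0, ⟨hz1, hz2⟩, hz3, hz4⟩ := hz
  have hv1 := hv.1
  rcases le_or_gt (3 / 2) z.re with h3 | h3
  · exact hR z h3 hz2 (abs_le.2 ⟨hz3, hz4⟩)
  rcases le_or_gt z.re (-(1 / 2)) with h4 | h4
  · have h5 := hR (1 - z) (by simp; linarith) (by simp; linarith)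
      (by
        rw [Complex.sub_im, Complex.one_im, zero_sub, abs_neg]
        exact abs_le.2 ⟨hz3, hz4⟩)
    rw [xi_one_sub, logDeriv_xi_one_sub, norm_neg] at h5
    exact h5
  · have h5 := hx z.re ⟨h4.le, h3.le⟩
    have h6 : z.im = v ∨ z.im = -v := by
      rcases hz0 with h | h | h | h
      · exfalso; linarith
      · exfalso; linarith
      · right; exact h
      · left; exact h
    have h7 : C₁ * (Real.log n) ^ 2 ≤ (C₁ + 2 * C₂) * (Real.log n) ^ 2 := by nlinarith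
    rcases h6 with h | h
    · have e : z = z.re + v * I := by
        apply Complex.ext
        · simp
        · simp [h]
      rw [e]
      exact ⟨h5.1.1, h5.1.2.trans h7⟩
    · have e : z = z.re + (-v : ℝ) * I := by
        apply Complex.ext
        · simp
        · simp [h]
      rw [e]
      exact ⟨h5.2.1, h5.2.2.trans h7⟩

/-! ## Multiplicities -/

lemma mz_neg (γ : ℝ) : mz (-γ) = mz γ := by
  rw [mz_eq, mz_eq, ← xi_mult, ← xi_mult]
  have e : (1 / 2 + ((-γ : ℝ) : ℂ) * I) = 1 - (1 / 2 + γ * I) := by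
    push_cast; ring
  have h1 : xi = xi ∘ (fun z : ℂ => 1 - z) := by
    funext z
    rw [Function.comp_apply, xi_one_sub]
  have h2 : deriv (fun z : ℂ => 1 - z) (1 / 2 + ((-γ : ℝ) : ℂ) * I) ≠ 0 := by
    rw [deriv_const_sub, deriv_id'']
    norm_num
  have h3 : AnalyticAt ℂ (fun z : ℂ => 1 - z) (1 / 2 + ((-γ : ℝ) : ℂ) * I) := by fun_prop
  have h4 := analyticOrderAt_comp_of_deriv_ne_zero (f := xi) h3 h2
  rw [← h1] at h4
  rw [analyticOrderNatAt, analyticOrderNatAt, h4]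
  congr 2
  rw [e]; ring

lemma summable_P {δ : ℝ} (hδ : 0 < δ) (y : ℝ) :
    Summable (fun γ : ℝ => (mz γ : ℝ) * (δ / (δ ^ 2 + (y - γ) ^ 2))) := by
  refine Summable.of_nonneg_of_le (fun γ => by positivity) ?_
    (mult_summable.mul_left (δ * ((1 + 2 * y ^ 2) / δ ^ 2 + 2)))
  intro γ
  rw [mz_eq]
  have h1 : (0:ℝ) < 1 + γ ^ 2 := by positivity
  have h2 : 0 < δ ^ 2 + (y - γ) ^ 2 := by positivity
  have h3 : 1 + γ ^ 2 ≤ ((1 + 2 * y ^ 2) / δ ^ 2 + 2) * (δ ^ 2 + (y - γ) ^ 2) := by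
    have e : ((1 + 2 * y ^ 2) / δ ^ 2 + 2) * (δ ^ 2 + (y - γ) ^ 2) =
        (1 + 2 * y ^ 2) + (1 + 2 * y ^ 2) / δ ^ 2 * (y - γ) ^ 2 + 2 * δ ^ 2 + 2 * (y - γ) ^ 2 := by
      field_simp
      ring
    rw [e]
    have h4 : 0 ≤ (1 + 2 * y ^ 2) / δ ^ 2 * (y - γ) ^ 2 := by positivity
    nlinarith [sq_nonneg (2 * y - γ), sq_nonneg δ]
  have h5 : δ / (δ ^ 2 + (y - γ) ^ 2) ≤ (δ * ((1 + 2 * y ^ 2) / δ ^ 2 + 2)) / (1 + γ ^ 2) := by
    rw [div_le_div_iff₀ h2 h1, mul_assoc]
    exact mul_le_mul_of_nonneg_left h3 hδ.le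
  calc (zeroMult γ : ℝ) * (δ / (δ ^ 2 + (y - γ) ^ 2)) ≤
      (zeroMult γ : ℝ) * ((δ * ((1 + 2 * y ^ 2) / δ ^ 2 + 2)) / (1 + γ ^ 2)) :=
        mul_le_mul_of_nonneg_left h5 (Nat.cast_nonneg _)
    _ = _ := by ring

lemma summable_Q {δ : ℝ} (hδ : 0 < δ) (y : ℝ) :
    Summable (fun γ : ℝ => (mz γ : ℝ) * (δ / (δ ^ 2 + (y + γ) ^ 2))) := by
  have h := (Equiv.neg ℝ).summable_iff.2 (summable_P hδ y)
  refine h.congr fun γ => ?_
  simp only [Function.comp_apply, Equiv.neg_apply, mz_neg, sub_neg_eq_add]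

lemma tsum_Q {δ : ℝ} (y : ℝ) :
    ∑' γ : ℝ, (mz γ : ℝ) * (δ / (δ ^ 2 + (y + γ) ^ 2)) = PD δ y := by
  rw [PD, ← (Equiv.neg ℝ).tsum_eq]
  apply tsum_congr
  intro γ
  simp only [Equiv.neg_apply, mz_neg, ← sub_eq_add_neg]

lemma re_one_div (δ u : ℝ) : (1 / ((δ : ℂ) + u * I)).re = δ / (δ ^ 2 + u ^ 2) := by
  rw [one_div, Complex.inv_re, Complex.normSq_apply]
  simp only [add_re, ofReal_re, mul_re, I_re, mul_zero, ofReal_im, I_im, mul_one, sub_self,
    add_zero, add_im, mul_im, zero_add]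
  congr 1
  ring

/-! ## The kernel on the boundary -/

lemma kernel_bound {δ y v : ℝ} (hδ : 0 < δ) (hδ1 : δ < 1) (hv : 2 * |y| + 4 ≤ v) {z : ℂ}
    (hz : z ∈ bdry (1 - v) v (-v) v) :
    ‖1 / (z - (1 / 2 + δ + y * I)) - 1 / (z - (1 - (1 / 2 + δ + y * I)))‖ ≤
      (2 + 2 * |y|) * (4 / v ^ 2) := by
  have hy0 := abs_nonneg y
  have hv0 : 0 < v := by linarith
  have hyl := neg_abs_le y
  have hyu := le_abs_self y
  have key : ∀ w : ℂ, |w.re| ≤ 3 / 2 → -(1 / 2) ≤ w.re → |w.im| ≤ |y| → v / 2 ≤ ‖z - w‖ := by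
    intro w hw1 hw0 hw2
    obtain ⟨h1, h2⟩ := abs_le.1 hw1
    obtain ⟨h3, h4⟩ := abs_le.1 hw2
    rcases hz.1 with h | h | h | h
    · refine le_trans ?_ (Complex.abs_re_le_norm _)
      rw [Complex.sub_re, h]
      refine le_trans ?_ (neg_le_abs _)
      linarith
    · refine le_trans ?_ (Complex.abs_re_le_norm _)
      rw [Complex.sub_re, h]
      refine le_trans ?_ (le_abs_self _)
      linarith
    · refine le_trans ?_ (Complex.abs_im_le_norm _)
      rw [Complex.sub_im, h]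
      refine le_trans ?_ (neg_le_abs _)
      linarith
    · refine le_trans ?_ (Complex.abs_im_le_norm _)
      rw [Complex.sub_im, h]
      refine le_trans ?_ (le_abs_self _)
      linarith
  have e1 : (1 / 2 + δ + y * I : ℂ).re = 1 / 2 + δ := by simp
  have e2 : (1 / 2 + δ + y * I : ℂ).im = y := by simp
  have e3 : (1 - (1 / 2 + δ + y * I) : ℂ).re = 1 / 2 - δ := by
    rw [Complex.sub_re, e1, Complex.one_re]; ring
  have e4 : (1 - (1 / 2 + δ + y * I) : ℂ).im = -y := by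
    rw [Complex.sub_im, e2, Complex.one_im]; ring
  have k1 := key (1 / 2 + δ + y * I) (by rw [e1, abs_le]; constructor <;> linarith)
    (by rw [e1]; linarith) (by rw [e2])
  have k2 := key (1 - (1 / 2 + δ + y * I)) (by rw [e3, abs_le]; constructor <;> linarith)
    (by rw [e3]; linarith) (by rw [e4, abs_neg])
  have n1 : z - (1 / 2 + δ + y * I) ≠ 0 := by
    rw [← norm_pos_iff]; linarith
  have n2 : z - (1 - (1 / 2 + δ + y * I)) ≠ 0 := by
    rw [← norm_pos_iff]; linarith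
  have e5 : 1 / (z - (1 / 2 + δ + y * I)) - 1 / (z - (1 - (1 / 2 + δ + y * I))) =
      (((2 * δ : ℝ) : ℂ) + ((2 * y : ℝ) : ℂ) * I) /
        ((z - (1 / 2 + δ + y * I)) * (z - (1 - (1 / 2 + δ + y * I)))) := by
    rw [div_sub_div _ _ n1 n2]
    congr 1
    push_cast
    ring
  rw [e5, norm_div, norm_mul]
  have h5 : ‖(((2 * δ : ℝ) : ℂ) + ((2 * y : ℝ) : ℂ) * I)‖ ≤ 2 + 2 * |y| := by
    refine (norm_add_le _ _).trans ?_
    rw [norm_mul, Complex.norm_I, mul_one, Complex.norm_real, Complex.norm_real,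
      Real.norm_eq_abs, Real.norm_eq_abs, abs_mul, abs_mul, abs_two, abs_of_pos hδ]
    linarith
  have h6 : v ^ 2 / 4 ≤ ‖z - (1 / 2 + δ + y * I)‖ * ‖z - (1 - (1 / 2 + δ + y * I))‖ := by
    calc v ^ 2 / 4 = (v / 2) * (v / 2) := by ring
      _ ≤ _ := mul_le_mul k1 k2 (by positivity) (norm_nonneg _)
  calc _ ≤ (2 + 2 * |y|) / (v ^ 2 / 4) :=
        div_le_div₀ (by positivity) h5 (by positivity) h6
    _ = _ := by
      field_simp

/-- **PFR** -/
theorem pfr (hRH : RiemannHypothesis) (hX : XgrStatement) : PfrStatement := by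
  classical
  intro y δ hδ hδ1
  have hxi0 : xi (1 / 2 + δ + y * I) ≠ 0 := by
    intro h
    obtain ⟨γ, h1, -⟩ := (xi_zero_iff hRH _).1 h
    have h2 := congrArg Complex.re h1
    simp at h2
    linarith
  refine ⟨summable_P hδ y, hxi0, ?_⟩
  obtain ⟨s, hs⟩ : ∃ s : ℂ, s = 1 / 2 + δ + y * I := ⟨_, rfl⟩
  have hsre : s.re = 1 / 2 + δ := by rw [hs]; simp
  have hsim : s.im = y := by rw [hs]; simp
  rw [← hs] at hxi0 ⊢
  obtain ⟨C, hC, hgood⟩ := bdry_bound hX
  have hgood' : ∀ n : ℕ, ∃ v : ℝ, 9 ≤ n → v ∈ Icc ((n:ℝ) - 1/4) (n + 1/4) ∧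
      ∀ z ∈ bdry (1 - v) v (-v) v, xi z ≠ 0 ∧ ‖logDeriv xi z‖ ≤ C * (Real.log n) ^ 2 := by
    intro n
    by_cases h : 9 ≤ n
    · obtain ⟨v, hv1, hv2⟩ := hgood n h
      exact ⟨v, fun _ => ⟨hv1, hv2⟩⟩
    · exact ⟨0, fun h' => absurd h' h⟩
  choose v hv using hgood'
  have hvtop : Tendsto v atTop atTop := by
    have h1 : Tendsto (fun n : ℕ => (n:ℝ) - 1/4) atTop atTop :=
      tendsto_natCast_atTop_atTop.atTop_add tendsto_const_nhds
    refine tendsto_atTop_mono' _ ?_ h1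
    filter_upwards [eventually_ge_atTop 9] with n hn
    exact (hv n hn).1.1
  obtain ⟨Fn, hFn⟩ : ∃ Fn : ℕ → Finset ℝ, Fn = fun n => (zeros_in_compact_finite (v n)).toFinset :=
    ⟨_, rfl⟩
  have hmemF : ∀ n γ, γ ∈ Fn n ↔ |γ| ≤ v n ∧ riemannZeta (1/2 + γ * I) = 0 := by
    intro n γ
    rw [hFn]
    simp
  obtain ⟨f, hf⟩ : ∃ f : ℂ → ℂ, f = fun z => logDeriv xi z * (1 / (z - s) - 1 / (z - (1 - s))) :=
    ⟨_, rfl⟩
  obtain ⟨g, hg⟩ : ∃ g : ℝ → ℝ, g = fun γ => (mz γ : ℝ) * (δ / (δ ^ 2 + (y - γ) ^ 2)) +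
    (mz γ : ℝ) * (δ / (δ ^ 2 + (y + γ) ^ 2)) := ⟨_, rfl⟩
  have hev : ∀ᶠ n : ℕ in atTop, 9 ≤ n ∧ 2 * |y| + 4 ≤ v n :=
    (eventually_ge_atTop 9).and (hvtop.eventually_ge_atTop _)
  -- the residues
  have hres : ∀ᶠ n : ℕ in atTop, (rectI f (1 - v n) (v n) (-(v n)) (v n) / (2 * Real.pi * I)).re =
      2 * (logDeriv xi s).re - ∑ γ ∈ Fn n, g γ := by
    filter_upwards [hev] with n hn
    obtain ⟨hn9, hvn⟩ := hn
    obtain ⟨hv1, hv2⟩ := hv n hn9
    have hy0 := abs_nonneg y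
    have hyl := neg_abs_le y
    have hyu := le_abs_self y
    have hvpos : 0 < v n := by linarith
    obtain ⟨Z, hZ⟩ : ∃ Z : Finset ℂ, Z = (Fn n).image (fun γ : ℝ => (1/2 + γ * I : ℂ)) := ⟨_, rfl⟩
    have hinj : Set.InjOn (fun γ : ℝ => (1/2 + γ * I : ℂ)) (Fn n : Set ℝ) :=
      fun x _ y _ h => crit_injective h
    have hZmem : ∀ s, s ∈ Z ↔ ∃ γ ∈ Fn n, (1/2 + γ * I : ℂ) = s := by
      intro s; rw [hZ, Finset.mem_image]
    have hne0 : ∀ γ ∈ Fn n, |γ| < v n := by
      intro γ hγ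
      obtain ⟨h1, h2⟩ := (hmemF n γ).1 hγ
      rcases lt_or_eq_of_le h1 with h3 | h3
      · exact h3
      · exfalso
        have hxi : xi (1/2 + γ * I) = 0 := (xi_zero_iff hRH _).2 ⟨γ, rfl, h2⟩
        refine (hv2 (1/2 + γ * I) ?_).1 hxi
        have er : (1/2 + γ * I : ℂ).re = 1/2 := by simp
        have ei : (1/2 + γ * I : ℂ).im = γ := by simp
        refine ⟨?_, ?_, ?_⟩
        · rw [er, ei]
          rcases abs_eq hvpos.le |>.1 h3 with h4 | h4
          · right; right; right; exact h4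
          · right; right; left; exact h4
        · rw [er]; constructor <;> linarith
        · rw [ei]; exact abs_le.1 h1
    obtain ⟨h, hh, hFh, hhZ⟩ := exists_cofactor_light differentiable_xi Z (by
      intro s hs
      obtain ⟨γ, hγ, rfl⟩ := (hZmem s).1 hs
      rw [xi_order (by simp) (crit_ne_one γ), order_eq]
      simp)
    have hab : 1 - v n ≤ v n := by linarith
    have hcd : -(v n) ≤ v n := by linarith
    have hZin : ∀ w ∈ Z, (1 - v n < w.re ∧ w.re < v n) ∧ (-(v n) < w.im ∧ w.im < v n) := by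
      intro s hs
      obtain ⟨γ, hγ, rfl⟩ := (hZmem s).1 hs
      have h1 := abs_lt.1 (hne0 γ hγ)
      simp only [add_re, div_ofNat_re, one_re, mul_re, ofReal_re, I_re, mul_zero, ofReal_im, I_im,
        mul_one, sub_self, add_zero, add_im, div_ofNat_im, one_im, zero_div, mul_im, zero_add]
      exact ⟨⟨by linarith, by linarith⟩, h1.1, h1.2⟩
    have h0 : ∀ z : ℂ, 1 - v n ≤ z.re → z.re ≤ v n → -(v n) ≤ z.im → z.im ≤ v n → h z ≠ 0 := by
      intro s h1 h2 h3 h4 h5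
      have hx : xi s = 0 := by rw [hFh s, h5, mul_zero]
      obtain ⟨γ, rfl, hγ⟩ := (xi_zero_iff hRH s).1 hx
      have him : (1/2 + γ * I : ℂ).im = γ := by simp
      rw [him] at h3 h4
      have hm : γ ∈ Fn n := (hmemF n γ).2 ⟨abs_le.2 ⟨h3, h4⟩, hγ⟩
      exact hhZ _ ((hZmem _).2 ⟨γ, hm, rfl⟩) h5
    have hsZ : s ∉ Z := by
      intro hm
      obtain ⟨γ, hγ, h1⟩ := (hZmem s).1 hm
      have h2 := congrArg Complex.re h1
      rw [hsre] at h2
      simp at h2
      linarith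
    have hsZ' : (1 - s) ∉ Z := by
      intro hm
      obtain ⟨γ, hγ, h1⟩ := (hZmem _).1 hm
      have h2 := congrArg Complex.re h1
      rw [Complex.sub_re, hsre] at h2
      simp at h2
      linarith
    have hsin : (1 - v n < s.re ∧ s.re < v n) ∧ (-(v n) < s.im ∧ s.im < v n) := by
      rw [hsre, hsim]
      exact ⟨⟨by linarith, by linarith⟩, by linarith, by linarith⟩
    have hsin' : (1 - v n < (1 - s).re ∧ (1 - s).re < v n) ∧
        (-(v n) < (1 - s).im ∧ (1 - s).im < v n) := by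
      rw [Complex.sub_re, Complex.sub_im, hsre, hsim, Complex.one_re, Complex.one_im]
      exact ⟨⟨by linarith, by linarith⟩, by linarith, by linarith⟩
    have hR1 := rectI_partial (F := xi) hh hab hcd Z (fun s => analyticOrderNatAt xi s) hFh hZin h0
      hsin hsZ
    have hR2 := rectI_partial (F := xi) hh hab hcd Z (fun s => analyticOrderNatAt xi s) hFh hZin h0
      hsin' hsZ'
    -- continuity on the boundary
    have hcl : ContinuousOn (logDeriv xi) (bdry (1 - v n) (v n) (-(v n)) (v n)) := by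
      have e : logDeriv xi = fun z => deriv xi z / xi z := by
        funext z; rw [logDeriv_apply]
      rw [e]
      apply ContinuousOn.div
      · exact (differentiable_xi.contDiff (n := 1)).continuous_deriv_one.continuousOn
      · exact differentiable_xi.continuous.continuousOn
      · intro z hz
        exact (hv2 z hz).1
    have hc1 : ContinuousOn (fun z => logDeriv xi z * (1 / (z - s)))
        (bdry (1 - v n) (v n) (-(v n)) (v n)) := by
      apply hcl.mul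
      apply ContinuousOn.div continuousOn_const (by fun_prop)
      intro z hz
      exact sub_ne_zero.2 (not_mem_bdry hsin.1.1 hsin.1.2 hsin.2.1 hsin.2.2 hz)
    have hc2 : ContinuousOn (fun z => (-1) * (logDeriv xi z * (1 / (z - (1 - s)))))
        (bdry (1 - v n) (v n) (-(v n)) (v n)) := by
      apply ContinuousOn.mul continuousOn_const
      apply hcl.mul
      apply ContinuousOn.div continuousOn_const (by fun_prop)
      intro z hz
      exact sub_ne_zero.2 (not_mem_bdry hsin'.1.1 hsin'.1.2 hsin'.2.1 hsin'.2.2 hz)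
    have hsplit : rectI f (1 - v n) (v n) (-(v n)) (v n) =
        rectI (fun z => logDeriv xi z * (1 / (z - s))) (1 - v n) (v n) (-(v n)) (v n) +
          (-1) * rectI (fun z => logDeriv xi z * (1 / (z - (1 - s)))) (1 - v n) (v n) (-(v n)) (v n)
        := by
      rw [← rectI_const_mul, ← rectI_add hab hcd hc1 hc2, hf]
      congr 1
      funext z
      ring
    rw [hsplit, hR1, hR2, logDeriv_xi_one_sub]
    have hpi : (2 * Real.pi * I : ℂ) ≠ 0 := by
      have := Real.pi_pos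
      simp [Real.pi_ne_zero]
    have e1 : (2 * Real.pi * I * (logDeriv xi s - ∑ w ∈ Z, ((analyticOrderNatAt xi w : ℕ) : ℂ) *
        (1 / (s - w))) + (-1) * (2 * Real.pi * I * (-logDeriv xi s -
          ∑ w ∈ Z, ((analyticOrderNatAt xi w : ℕ) : ℂ) * (1 / (1 - s - w))))) / (2 * Real.pi * I) =
        2 * logDeriv xi s - (∑ w ∈ Z, ((analyticOrderNatAt xi w : ℕ) : ℂ) * (1 / (s - w)) -
          ∑ w ∈ Z, ((analyticOrderNatAt xi w : ℕ) : ℂ) * (1 / (1 - s - w))) := by
      field_simp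
      ring
    rw [e1, Complex.sub_re]
    have e2 : (2 * logDeriv xi s).re = 2 * (logDeriv xi s).re := by
      have : (2 : ℂ) = ((2 : ℝ) : ℂ) := by norm_num
      rw [this, Complex.re_ofReal_mul]
    rw [e2, ← Finset.sum_sub_distrib, hZ, Finset.sum_image hinj, Complex.re_sum]
    congr 1
    apply Finset.sum_congr rfl
    intro γ _
    have e3 : s - (1/2 + γ * I) = (δ : ℂ) + ((y - γ : ℝ) : ℂ) * I := by
      rw [hs]; push_cast; ring
    have e4 : 1 - s - (1/2 + γ * I) = -((δ : ℂ) + ((y + γ : ℝ) : ℂ) * I) := by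
      rw [hs]; push_cast; ring
    rw [xi_mult, e3, e4, ← mz_eq, hg]
    have e5 : ((mz γ : ℕ) : ℂ) * (1 / ((δ : ℂ) + ((y - γ : ℝ) : ℂ) * I)) -
        ((mz γ : ℕ) : ℂ) * (1 / -((δ : ℂ) + ((y + γ : ℝ) : ℂ) * I)) =
        ((mz γ : ℝ) : ℂ) * (1 / ((δ : ℂ) + ((y - γ : ℝ) : ℂ) * I)) +
          ((mz γ : ℝ) : ℂ) * (1 / ((δ : ℂ) + ((y + γ : ℝ) : ℂ) * I)) := by
      rw [div_neg]
      push_cast
      ring
    rw [e5, Complex.add_re, Complex.re_ofReal_mul, Complex.re_ofReal_mul, re_one_div, re_one_div]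
  -- the integrals tend to zero
  have hlim0 : Tendsto (fun n => rectI f (1 - v n) (v n) (-(v n)) (v n)) atTop (𝓝 0) := by
    have hbd : ∀ᶠ n : ℕ in atTop, ‖rectI f (1 - v n) (v n) (-(v n)) (v n)‖ ≤
        (64 * C * (2 + 2 * |y|)) * ((Real.log n) ^ 2 / n) := by
      filter_upwards [hev] with n hn
      obtain ⟨hn9, hvn⟩ := hn
      obtain ⟨hv1, hv2⟩ := hv n hn9
      have hn9' : (9:ℝ) ≤ n := by exact_mod_cast hn9
      have hy0 := abs_nonneg y
      have hvpos : 0 < v n := by linarith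
      have h1 : ∀ z ∈ bdry (1 - v n) (v n) (-(v n)) (v n),
          ‖f z‖ ≤ (C * (Real.log n) ^ 2) * ((2 + 2 * |y|) * (4 / (v n) ^ 2)) := by
        intro z hz
        have h2 := (hv2 z hz).2
        have h3 := kernel_bound hδ hδ1 hvn hz
        rw [hf]
        simp only
        rw [norm_mul]
        rw [← hs] at h3
        exact mul_le_mul h2 h3 (norm_nonneg _) (by positivity)
      have h2 := norm_rectI_le (by linarith) (by linarith) h1
      refine h2.trans ?_
      have h3 : (v n - (1 - v n)) + (v n - -(v n)) ≤ 4 * v n := by linarith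
      have h4 : 1 / v n ≤ 2 / n := by
        rw [div_le_div_iff₀ hvpos (by linarith)]
        linarith [hv1.1]
      calc 2 * ((C * (Real.log n) ^ 2) * ((2 + 2 * |y|) * (4 / (v n) ^ 2))) *
            ((v n - (1 - v n)) + (v n - -(v n))) ≤
          2 * ((C * (Real.log n) ^ 2) * ((2 + 2 * |y|) * (4 / (v n) ^ 2))) * (4 * v n) := by
            apply mul_le_mul_of_nonneg_left h3 (by positivity)
        _ = (32 * C * (2 + 2 * |y|) * (Real.log n) ^ 2) * (1 / v n) := by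
            field_simp
            ring
        _ ≤ (32 * C * (2 + 2 * |y|) * (Real.log n) ^ 2) * (2 / n) := by
            apply mul_le_mul_of_nonneg_left h4 (by positivity)
        _ = _ := by ring
    apply squeeze_zero_norm' hbd
    have h1 : Tendsto (fun x : ℝ => Real.log x ^ 2 / x) atTop (𝓝 0) := by
      have := (Real.isLittleO_pow_log_id_atTop (n := 2)).tendsto_div_nhds_zero
      simpa using this
    have h2 := (h1.comp tendsto_natCast_atTop_atTop).const_mul (64 * C * (2 + 2 * |y|))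
    rw [mul_zero] at h2
    exact h2
  have hlim1 : Tendsto (fun n => (rectI f (1 - v n) (v n) (-(v n)) (v n) / (2 * Real.pi * I)).re)
      atTop (𝓝 0) := by
    have h1 := (hlim0.div_const (2 * Real.pi * I))
    rw [zero_div] at h1
    have h2 := (Complex.continuous_re.tendsto 0).comp h1
    rw [Complex.zero_re] at h2
    exact h2
  have hsumg : Summable g := by
    rw [hg]
    exact (summable_P hδ y).add (summable_Q hδ y)
  have hg0 : ∀ γ, 0 ≤ g γ := by
    intro γ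
    rw [hg]
    positivity
  have hlimS : Tendsto (fun n => ∑ γ ∈ Fn n, g γ) atTop (𝓝 (∑' γ : ℝ, g γ)) := by
    have h1 : ∀ n, ∑ γ ∈ Fn n, g γ = ∑' γ : ℝ, if γ ∈ Fn n then g γ else 0 := by
      intro n
      rw [tsum_eq_sum (s := Fn n) (fun γ hγ => if_neg hγ)]
      apply Finset.sum_congr rfl
      intro γ hγ
      rw [if_pos hγ]
    simp_rw [h1]
    apply tendsto_tsum_of_dominated_convergence hsumg
    · intro γ
      by_cases hγ : riemannZeta (1/2 + γ * I) = 0
      · apply tendsto_const_nhds.congr'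
        filter_upwards [hvtop.eventually_ge_atTop |γ|] with n hn
        rw [if_pos ((hmemF n γ).2 ⟨hn, hγ⟩)]
      · have h2 : g γ = 0 := by
          rw [hg]
          simp only
          rw [mz_eq, zeroMult_eq_zero_of_ne hγ]
          simp
        rw [h2]
        simp
    · refine Filter.Eventually.of_forall fun n γ => ?_
      split_ifs
      · rw [Real.norm_of_nonneg (hg0 γ)]
      · rw [norm_zero]; exact hg0 γ
  have htg : ∑' γ : ℝ, g γ = 2 * PD δ y := by
    rw [hg, (summable_P hδ y).tsum_add (summable_Q hδ y), tsum_Q]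
    rw [PD]
    ring
  have hlim2 : Tendsto (fun n => (rectI f (1 - v n) (v n) (-(v n)) (v n) / (2 * Real.pi * I)).re)
      atTop (𝓝 (2 * (logDeriv xi s).re - 2 * PD δ y)) := by
    rw [← htg]
    refine (tendsto_const_nhds.sub hlimS).congr' ?_
    filter_upwards [hres] with n hn
    rw [hn]
  have hfin := tendsto_nhds_unique hlim1 hlim2
  linarith

end Pool.Agent.Lib.MP_6bc78b_nt.MS.GL.H84
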